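import Pool.Agent.R645.TM.Main

/-! An extension of a locally tame group by a locally tame normal subgroup with fgip is locally
tame. -/

set_option autoImplicit false

namespace Pool.Agent.Results.MP_c673bc_al.ExtensionTame

open Pool.Agent.R645.TM

universe u

/-- A group is locally tame if it has a finite presentation with respect to which each of its
finitely generated subgroups is tame.  (The choice of the finite presentation does not matter; the
conclusion of `result` is about all finite presentations.) -/
def LocallyTame (G : Type u) [Group G] : Prop :=
  ∃ P : Pres G, ∀ H : Subgroup G, H.FG → Tame P H

/-- The finitely generated subgroup `N` has fgip in `G`: its intersection with every finitely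
generated subgroup of `G` is finitely generated. -/
def Fgip {G : Type u} [Group G] (N : Subgroup G) : Prop :=
  N.FG ∧ ∀ S : Subgroup G, S.FG → (N ⊓ S).FG

/-- Let `G` be a finitely presented group and `N` a finitely generated normal subgroup with fgip
in `G` such that `N` and `G / N` are locally tame.  Then `G` is locally tame, and its finitely
generated subgroups are tame with respect to every finite presentation of `G`. -/
theorem result {G : Type u} [Group G] (hG : Nonempty (Pres G)) (N : Subgroup G) [N.Normal]
    (hN : LocallyTame N) (hQ : LocallyTame (G ⧸ N)) (hfgip : Fgip N) :
    LocallyTame G ∧ ∀ (P : Pres G) (S : Subgroup G), S.FG → Tame P S := by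
  have h := ext_main N hN hQ hfgip.2
  obtain ⟨P⟩ := hG
  exact ⟨⟨P, fun S hS => h P S hS⟩, h⟩

end Pool.Agent.Results.MP_c673bc_al.ExtensionTame
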